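import Mathlib
import Pool.Agent.H.MP_7a60ac_an.B

namespace Pool.Agent.Results.MP_7a60ac_an.Yes

open Complex Metric Finset PowerSeries Filter Topology

/-- The class `B_1(α)`; `L` is the analytic branch of `log (f(z)/z)` vanishing at `0`. -/
def InB1 (α : ℝ) (f : ℂ → ℂ) : Prop :=
  DifferentiableOn ℂ f (ball 0 1) ∧ f 0 = 0 ∧ deriv f 0 = 1 ∧
    ∃ L : ℂ → ℂ, DifferentiableOn ℂ L (ball 0 1) ∧ L 0 = 0 ∧
      (∀ z ∈ ball (0 : ℂ) 1, f z = z * Complex.exp (L z)) ∧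
      ∀ z ∈ ball (0 : ℂ) 1, 0 < (Complex.exp ((α - 1) * L z) * deriv f z).re

open Pool.Agent.H.MP_7a60ac_an

theorem result (α : ℝ) (hα : 1 ≤ α) (f : ℂ → ℂ) (hf : InB1 α f) (n : ℕ) (hn : 2 ≤ n) :
    ‖iteratedDeriv n f 0 / (n.factorial : ℂ)‖ ≤ 2 / (n - 1 + α) := by
  obtain ⟨hd, -, -, L, hL, L0, hfL, hre⟩ := hf
  obtain ⟨m, rfl⟩ := Nat.exists_eq_add_of_le' hn
  have h0 : 0 < α := by linarith
  have a0 : (α : ℂ) ≠ 0 := by exact_mod_cast h0.ne'
  have hb := ball_mem_nhds (0 : ℂ) one_pos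
  have aL := hL.analyticAt hb
  have dL : ∀ z ∈ ball (0 : ℂ) 1, HasDerivAt L (deriv L z) z := fun z hz =>
    (hL.differentiableAt (isOpen_ball.mem_nhds hz)).hasDerivAt
  obtain ⟨P, hP⟩ : ∃ P : ℂ → ℂ, P = fun z => Complex.exp (α * L z) := ⟨_, rfl⟩
  obtain ⟨Q, hQ⟩ : ∃ Q : ℂ → ℂ, Q = fun z => Complex.exp (L z) := ⟨_, rfl⟩
  obtain ⟨h, hh⟩ : ∃ h : ℂ → ℂ, h = fun z => Complex.exp ((α - 1) * L z) * deriv f z := ⟨_, rfl⟩
  have aP : AnalyticAt ℂ P 0 := by rw [hP]; fun_prop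
  have aQ : AnalyticAt ℂ Q 0 := by rw [hQ]; fun_prop
  have dP : ∀ z ∈ ball (0 : ℂ) 1, deriv P z = P z * (α * deriv L z) := fun z hz => by
    rw [hP]; exact ((dL z hz).const_mul _).cexp.deriv
  have dQ : ∀ z ∈ ball (0 : ℂ) 1, deriv Q z = Q z * deriv L z := fun z hz => by
    rw [hQ]; exact (dL z hz).cexp.deriv
  have dh : DifferentiableOn ℂ h (ball 0 1) := hh ▸ (hL.const_mul _).cexp.mul (hd.deriv isOpen_ball)
  have e1 : ts f = ts Q * X := by
    rw [← ts_id, ← ts_mul aQ (by fun_prop)]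
    exact ts_congr (mem_of_superset hb fun z hz => by simp [hQ, hfL z hz, mul_comm])
  have e2 : C (α : ℂ) * ts h = C (α : ℂ) * ts P + d⁄dX ℂ (ts P) * X := by
    rw [← ts_deriv, ← ts_id, ← ts_mul aP.deriv (by fun_prop), ← ts_cmul, ← ts_cmul,
      ← ts_add (by fun_prop) (by have := aP.deriv; fun_prop)]
    refine ts_congr (mem_of_superset hb fun z hz => ?_)
    have e : f =ᶠ[𝓝 z] fun w => w * Complex.exp (L w) :=
      mem_of_superset (isOpen_ball.mem_nhds hz) hfL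
    have d := ((hasDerivAt_id' z).mul (dL z hz).cexp).deriv
    have x : Complex.exp ((α - 1) * L z) * Complex.exp (L z) = Complex.exp (α * L z) := by
      rw [← Complex.exp_add]; congr 1; ring
    show α * h z = α * P z + deriv P z * z
    rw [dP z hz, hh, hP]
    simp only
    rw [e.deriv_eq, show deriv (fun w => w * Complex.exp (L w)) z = _ from d, ← x]; ring
  have e3 : ts P * d⁄dX ℂ (ts Q) = C (α : ℂ)⁻¹ * d⁄dX ℂ (ts P) * ts Q := by
    rw [← ts_deriv, ← ts_deriv, ← ts_cmul, ← ts_mul aP aQ.deriv,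
      ← ts_mul (by have := aP.deriv; fun_prop) aQ]
    refine ts_congr (mem_of_superset hb fun z hz => ?_)
    show P z * deriv Q z = (α : ℂ)⁻¹ * deriv P z * Q z
    rw [dP z hz, dQ z hz]; field_simp
  have e4 : ∀ k, α * co h k = (k + α) * co P k := fun k => by
    have := congrArg (coeff k) e2
    rcases k with _ | k
    · simpa [ts] using this
    · simp only [ts, map_add, coeff_C_mul, coeff_mk, coeff_succ_mul_X, coeff_derivative] at this
      rw [this]; push_cast; ring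
  have P0 : co P 0 = 1 := by simp [co, hP, L0]
  have t := fun r r0 r1 => tp_r dh (fun z hz => by rw [hh]; exact (hre z hz).le) (r := r) r0 r1 (m + 1)
  have tA : TP (m + 1) (co P) := fun x => by
    refine (mul_nonneg h0.le (tp_int t h0 x)).trans_eq ?_
    simp only [← re_ofReal_mul, mul_sum, ← mul_assoc, ← mul_div_assoc, e4]
    refine congrArg re (sum_congr rfl fun j _ => sum_congr rfl fun i _ => ?_)
    rw [mul_div_cancel_left₀ _ (by exact_mod_cast (by positivity : ((j - i : ℕ) : ℝ) + α ≠ 0))]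
  let μ : ℕ → ℝ := fun k => Nat.rec 1 (fun k x => (k + 1 - α⁻¹) * x / (k + 2)) k
  have hμ : ∀ k : ℕ, (k + 2) * μ (k + 1) = (k + 1 - α⁻¹) * μ k := fun k =>
    mul_div_cancel₀ _ (by positivity)
  have b := mom (inv_pos.2 h0) (inv_le_one_of_one_le₀ hα) rfl hμ fun l l0 l1 =>
    key2 (tp_one t) tA h0 e4 P0 l0 l1
  have o := ode (a := ts P - 1) (Q := ts Q) (β := (α : ℂ)⁻¹)
    (b := fun k => Nat.casesOn (motive := fun _ => ℂ) k 1 fun k => (α : ℂ)⁻¹ * (-1) ^ k * ofReal (μ k))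
    (by simp [ts, P0])
    (by simp [ts, co, hQ, L0]) (by simpa using e3) rfl (fun k => by
      rcases k with _ | k
      · simp [μ]
      · have := congrArg ((↑) : ℝ → ℂ) (hμ k)
        push_cast at this ⊢
        linear_combination -(α : ℂ)⁻¹ * (-1) ^ k * this) (m + 2) (m + 1) (by omega)
  have e5 := congrArg (coeff (m + 2)) e1
  rw [coeff_succ_mul_X, o, sum_range_succ', ts, coeff_mk, co] at e5
  have e6 : iteratedDeriv (m + 2) f 0 / ((m + 2).factorial : ℂ) = (α : ℂ)⁻¹ * ∑ k ∈ range (m + 2),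
      (-1) ^ k * coeff (m + 1) ((mk (co P) - 1 : ℂ⟦X⟧) ^ (k + 1)) * ofReal (μ k) := by
    rw [e5, mul_sum, pow_zero, coeff_one, if_neg m.succ_ne_zero, mul_zero, add_zero]
    exact sum_congr rfl fun k _ => by simp only [ts]; ring
  rw [e6, norm_mul, norm_inv, Complex.norm_real, Real.norm_of_nonneg h0.le, inv_mul_le_iff₀ h0]
  refine b.trans_eq ?_
  push_cast; ring

end Pool.Agent.Results.MP_7a60ac_an.Yes
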